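import Pool.Agent.Lib.MP_ff7426_co.K2.Main
import Pool.Agent.Lib.MP_ff7426_co.U3.Base

/-!
MP_ff7426_co (helper33): from the graph theorem to union-closed families in which every element lies
in at most two generators.
-/

set_option autoImplicit false

namespace Pool.Agent.Lib.MP_ff7426_co.K2

open Pool.Agent.Lib.MP_ff7426_co.U3 (Uc Irr Cov)

variable {α : Type*} [DecidableEq α]

/-- every member is a union of generators -/
theorem cov_irr (F J : Finset (Finset α)) (hJ : ∀ A, A ∈ J ↔ Irr F A) :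
    ∀ n, ∀ A ∈ F, A.card = n → Cov J A := by
  intro n
  induction n using Nat.strong_induction_on with
  | _ n ih =>
    intro A hA hn v hv
    by_cases hI : Irr F A
    · exact ⟨A, (hJ A).2 hI, hv, subset_rfl⟩
    · have h1 : ∃ B ∈ F, ∃ C ∈ F, B ∪ C = A ∧ B ≠ A ∧ C ≠ A := by
        by_contra hcon
        push Not at hcon
        refine hI ⟨hA, ⟨v, hv⟩, fun B hB C hC hBC => ?_⟩
        by_cases h : B = A
        · exact Or.inl h
        · exact Or.inr (hcon B hB C hC hBC h)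
      obtain ⟨B, hB, C, hC, hBC, hBA, hCA⟩ := h1
      have hBs : B ⊂ A := Finset.ssubset_iff_subset_ne.2 ⟨hBC ▸ Finset.subset_union_left, hBA⟩
      have hCs : C ⊂ A := Finset.ssubset_iff_subset_ne.2 ⟨hBC ▸ Finset.subset_union_right, hCA⟩
      rw [← hBC] at hv
      rcases Finset.mem_union.1 hv with h | h
      · obtain ⟨g, hg, hvg, hgB⟩ := ih B.card (hn ▸ Finset.card_lt_card hBs) B hB rfl v h
        exact ⟨g, hg, hvg, hgB.trans hBs.subset⟩
      · obtain ⟨g, hg, hvg, hgC⟩ := ih C.card (hn ▸ Finset.card_lt_card hCs) C hC rfl v h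
        exact ⟨g, hg, hvg, hgC.trans hCs.subset⟩

theorem mem_of_cov (F J : Finset (Finset α)) (hU : Uc F) (hJF : ∀ A ∈ J, A ∈ F)
    (W : Finset α) (hW : Cov J W) (hne : W.Nonempty) : W ∈ F := by
  have key : ∀ S : Finset α, S ⊆ W → S.Nonempty → ∃ U ∈ F, S ⊆ U ∧ U ⊆ W := by
    intro S
    induction S using Finset.induction_on with
    | empty => intro _ h; exact absurd h (by simp)
    | insert v S hv ih =>
      intro hS _
      obtain ⟨h, hh, hvh, hhW⟩ := hW v (hS (Finset.mem_insert_self v S))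
      by_cases hSe : S.Nonempty
      · obtain ⟨U, hU', hSU, hUW⟩ := ih ((Finset.subset_insert v S).trans hS) hSe
        refine ⟨U ∪ h, hU U hU' h (hJF h hh), ?_, Finset.union_subset hUW hhW⟩
        intro w hw
        rcases Finset.mem_insert.1 hw with rfl | hw
        · exact Finset.mem_union_right _ hvh
        · exact Finset.mem_union_left _ (hSU hw)
      · rw [Finset.not_nonempty_iff_eq_empty] at hSe
        subst hSe
        refine ⟨h, hJF h hh, ?_, hhW⟩
        intro w hw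
        rw [Finset.mem_insert] at hw
        rcases hw with rfl | hw
        · exact hvh
        · exact absurd hw (by simp)
  obtain ⟨U, hU', h1, h2⟩ := key W subset_rfl hne
  rwa [Finset.Subset.antisymm h1 h2]

/-- the family with the empty set is the family of all unions of generators -/
theorem cov_insert (F J : Finset (Finset α)) (hU : Uc F) (hJ : ∀ A, A ∈ J ↔ Irr F A) :
    ∀ W, W ∈ insert ∅ F ↔ Cov J W := by
  intro W
  rw [Finset.mem_insert]
  constructor
  · rintro (rfl | hW)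
    · intro v hv
      exact absurd hv (by simp)
    · exact cov_irr F J hJ W.card W hW rfl
  · intro hc
    rcases W.eq_empty_or_nonempty with h | h
    · exact Or.inl h
    · exact Or.inr (mem_of_cov F J hU (fun A hA => ((hJ A).1 hA).1) W hc h)

/-- neighbours of a generator: the generators `B` such that some element lies exactly in the
generators `A` and `B` -/
def nb (J : Finset (Finset α)) (A : ↥J) : Finset ↥J :=
  Finset.univ.filter (fun B => ∃ y ∈ A.1, y ∈ B.1 ∧ ∀ C ∈ J, y ∈ C → C = A.1 ∨ C = B.1)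

theorem mem_nb {J : Finset (Finset α)} {A B : ↥J} :
    B ∈ nb J A ↔ ∃ y ∈ A.1, y ∈ B.1 ∧ ∀ C ∈ J, y ∈ C → C = A.1 ∨ C = B.1 := by
  rw [nb, Finset.mem_filter]
  simp

theorem nb_symm (J : Finset (Finset α)) (A B : ↥J) (h : A ∈ nb J B) : B ∈ nb J A := by
  rw [mem_nb] at h ⊢
  obtain ⟨y, h1, h2, h3⟩ := h
  exact ⟨y, h2, h1, fun C hC hy => (h3 C hC hy).symm⟩

/-- the generators not contained in `X` -/
def out (J : Finset (Finset α)) (X : Finset α) : Finset ↥J :=
  Finset.univ.filter (fun A => ¬ A.1 ⊆ X)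

theorem mem_out {J : Finset (Finset α)} {X : Finset α} {A : ↥J} :
    A ∈ out J X ↔ ¬ A.1 ⊆ X := by
  rw [out, Finset.mem_filter]
  simp

/-- the union of the generators not in `T` -/
def unn (J : Finset (Finset α)) (T : Finset ↥J) : Finset α :=
  (Finset.univ.filter (fun A => A ∉ T)).biUnion (fun A => A.1)

theorem mem_unn {J : Finset (Finset α)} {T : Finset ↥J} {v : α} :
    v ∈ unn J T ↔ ∃ A : ↥J, A ∉ T ∧ v ∈ A.1 := by
  rw [unn, Finset.mem_biUnion]
  constructor
  · rintro ⟨A, hA, hv⟩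
    exact ⟨A, (Finset.mem_filter.1 hA).2, hv⟩
  · rintro ⟨A, hA, hv⟩
    exact ⟨A, Finset.mem_filter.2 ⟨Finset.mem_univ _, hA⟩, hv⟩

theorem out_mem {J : Finset (Finset α)} (hd : ∀ y, ∀ A ∈ J, ∀ B ∈ J, ∀ C ∈ J, y ∈ A → y ∈ B →
    y ∈ C → A = B ∨ A = C ∨ B = C) (X : Finset α) : out J X ∈ TT (nb J) := by
  rw [mem_TT]
  intro A hA
  rw [mem_out, Finset.not_subset] at hA
  obtain ⟨y, hyA, hyX⟩ := hA
  have hout : ∀ C : ↥J, y ∈ C.1 → C ∈ out J X := by
    intro C hC
    rw [mem_out, Finset.not_subset]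
    exact ⟨y, hC, hyX⟩
  by_cases h : ∃ B : ↥J, y ∈ B.1 ∧ B ≠ A
  · obtain ⟨B, hB, hBA⟩ := h
    refine ⟨B, mem_nb.2 ⟨y, hyA, hB, fun C hC hyC => ?_⟩, hout B hB⟩
    rcases hd y A.1 A.2 B.1 B.2 C hC hyA hB hyC with h1 | h1 | h1
    · exact absurd (Subtype.ext h1.symm) hBA
    · exact Or.inl h1.symm
    · exact Or.inr h1.symm
  · push Not at h
    refine ⟨A, mem_nb.2 ⟨y, hyA, hyA, fun C hC hyC => ?_⟩, hout A hyA⟩
    left
    exact congrArg Subtype.val (h ⟨C, hC⟩ hyC)

theorem out_inj {J : Finset (Finset α)} {X Y : Finset α} (hX : Cov J X) (hY : Cov J Y)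
    (h : out J X = out J Y) : X = Y := by
  have key : ∀ X Y : Finset α, Cov J X → out J X = out J Y → X ⊆ Y := by
    intro X Y hX h v hv
    obtain ⟨g, hg, hvg, hgX⟩ := hX v hv
    by_contra hvY
    have h1 : (⟨g, hg⟩ : ↥J) ∈ out J Y := by
      rw [mem_out, Finset.not_subset]
      exact ⟨v, hvg, hvY⟩
    rw [← h, mem_out] at h1
    exact h1 hgX
  exact Finset.Subset.antisymm (key X Y hX h) (key Y X hY h.symm)

theorem out_unn {J : Finset (Finset α)} {T : Finset ↥J} (hT : T ∈ TT (nb J)) :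
    out J (unn J T) = T := by
  rw [mem_TT] at hT
  ext A
  rw [mem_out]
  constructor
  · intro h
    by_contra hAT
    exact h (fun v hv => mem_unn.2 ⟨A, hAT, hv⟩)
  · intro hAT hsub
    obtain ⟨B, hB, hBT⟩ := hT A hAT
    obtain ⟨y, hyA, hyB, hy⟩ := mem_nb.1 hB
    obtain ⟨C, hCT, hyC⟩ := mem_unn.1 (hsub hyA)
    rcases hy C.1 C.2 hyC with h1 | h1
    · exact hCT (Subtype.ext h1 ▸ hAT)
    · exact hCT (Subtype.ext h1 ▸ hBT)

theorem cov_unn {J : Finset (Finset α)} (T : Finset ↥J) : Cov J (unn J T) := by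
  intro v hv
  obtain ⟨A, hA, hvA⟩ := mem_unn.1 hv
  exact ⟨A.1, A.2, hvA, fun u hu => mem_unn.2 ⟨A, hA, hu⟩⟩

/-- a point missed by a non-empty member is not the only half-frequent element -/
theorem core (F : Finset (Finset α)) (hU : Uc F)
    (h2 : ∀ y A B C, Irr F A → Irr F B → Irr F C → y ∈ A → y ∈ B → y ∈ C →
      A = B ∨ A = C ∨ B = C)
    (x : α) (A : Finset α) (hA : A ∈ F) (hne : A.Nonempty) (hxA : x ∉ A) :
    ∃ y, y ≠ x ∧ F.card ≤ 2 * (F.filter (fun B => y ∈ B)).card := by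
  classical
  set J := F.filter (fun A => Irr F A) with hJdef
  have hJ : ∀ A, A ∈ J ↔ Irr F A := by
    intro A
    rw [hJdef, Finset.mem_filter]
    exact ⟨fun h => h.2, fun h => ⟨h.1, h⟩⟩
  have hcov := cov_insert F J hU hJ
  have hd : ∀ y, ∀ A ∈ J, ∀ B ∈ J, ∀ C ∈ J, y ∈ A → y ∈ B → y ∈ C → A = B ∨ A = C ∨ B = C :=
    fun y A hA B hB C hC => h2 y A B C ((hJ A).1 hA) ((hJ B).1 hB) ((hJ C).1 hC)
  -- a generator missing `x`
  obtain ⟨v, hv⟩ := hne
  obtain ⟨g, hg, hvg, hgA⟩ := (hcov A).1 (Finset.mem_insert_of_mem hA) v hv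
  have hxg : x ∉ g := fun h => hxA (hgA h)
  -- the exceptional set
  set E : Finset ↥J := Finset.univ.filter (fun B => x ∈ B.1) with hE
  have hmemE : ∀ B : ↥J, B ∈ E ↔ x ∈ B.1 := by
    intro B
    rw [hE, Finset.mem_filter]
    simp
  have hEcard : E.card ≤ 2 := by
    by_contra hcon
    rw [not_le, Finset.two_lt_card] at hcon
    obtain ⟨a, ha, b, hb, c, hc, hab, hac, hbc⟩ := hcon
    rcases hd x a.1 a.2 b.1 b.2 c.1 c.2 ((hmemE a).1 ha) ((hmemE b).1 hb) ((hmemE c).1 hc) with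
      h | h | h
    · exact hab (Subtype.ext h)
    · exact hac (Subtype.ext h)
    · exact hbc (Subtype.ext h)
  have hex : ∀ (u : α) (a : ↥J), u ∈ a.1 → ∃ b : ↥J, u ∈ b.1 ∧ b ∈ nb J a := by
    intro u a ha
    by_cases h : ∃ b : ↥J, u ∈ b.1 ∧ b ≠ a
    · obtain ⟨b, hb, hba⟩ := h
      refine ⟨b, hb, mem_nb.2 ⟨u, ha, hb, fun C hC huC => ?_⟩⟩
      rcases hd u a.1 a.2 b.1 b.2 C hC ha hb huC with h1 | h1 | h1
      · exact absurd (Subtype.ext h1.symm) hba
      · exact Or.inl h1.symm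
      · exact Or.inr h1.symm
    · push Not at h
      refine ⟨a, ha, mem_nb.2 ⟨u, ha, ha, fun C hC huC => ?_⟩⟩
      left
      exact congrArg Subtype.val (h ⟨C, hC⟩ huC)
  have hEE : ∀ a ∈ E, ∃ b ∈ E, b ∈ nb J a := by
    intro a ha
    obtain ⟨b, hb, hb2⟩ := hex x a ((hmemE a).1 ha)
    exact ⟨b, (hmemE b).2 hb, hb2⟩
  -- a vertex of minimum degree outside the exceptional set
  have hSne : (Finset.univ.filter (fun B : ↥J => B ∉ E)).Nonempty := by
    refine ⟨⟨g, hg⟩, ?_⟩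
    rw [Finset.mem_filter]
    exact ⟨Finset.mem_univ _, fun h => hxg ((hmemE _).1 h)⟩
  obtain ⟨w, hw, hmin⟩ := Finset.exists_min_image _ (fun B => (nb J B).card) hSne
  rw [Finset.mem_filter] at hw
  have hwne : (nb J w).Nonempty := by
    obtain ⟨u, hu⟩ := ((hJ w.1).1 w.2).2.1
    obtain ⟨b, _, hb⟩ := hex u w hu
    exact ⟨b, hb⟩
  obtain ⟨j, hj, hgood⟩ := vertex (N := nb J) (fun u v h => nb_symm J u v h) hEcard hEE hw.2 hwne
    (fun v hv => hmin v (Finset.mem_filter.2 ⟨Finset.mem_univ _, hv⟩))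
  obtain ⟨y, hyw, hyj, hy⟩ := mem_nb.1 hj
  have hxw : x ∉ w.1 := fun h => hw.2 ((hmemE w).2 h)
  refine ⟨y, fun h => hxw (h ▸ hyw), ?_⟩
  -- counting
  set F' := insert ∅ F with hF'
  have h3 : (F'.filter (fun X => ¬ y ∈ X)).card ≤
      ((TT (nb J)).filter (fun T => w ∈ T ∧ j ∈ T)).card := by
    refine Finset.card_le_card_of_injOn (fun X => out J X) ?_ ?_
    · intro X hX
      rw [Finset.mem_coe, Finset.mem_filter] at hX
      rw [Finset.mem_coe, Finset.mem_filter, mem_out, mem_out, Finset.not_subset,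
        Finset.not_subset]
      exact ⟨out_mem hd X, ⟨y, hyw, hX.2⟩, ⟨y, hyj, hX.2⟩⟩
    · intro X hX Y hY heq
      rw [Finset.mem_coe, Finset.mem_filter] at hX hY
      exact out_inj ((hcov X).1 hX.1) ((hcov Y).1 hY.1) heq
  have h4 : (TT (nb J)).card ≤ F'.card := by
    refine Finset.card_le_card_of_injOn (fun T => unn J T) ?_ ?_
    · intro T _
      exact (hcov _).2 (cov_unn T)
    · intro T hT T' hT' heq
      simp only at heq
      rw [← out_unn hT, ← out_unn hT', heq]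
  have h5 := Finset.card_filter_add_card_filter_not (s := F') (fun X => y ∈ X)
  have h6 : F'.filter (fun X => y ∈ X) ⊆ F.filter (fun X => y ∈ X) := by
    intro X hX
    rw [Finset.mem_filter, hF', Finset.mem_insert] at hX
    rw [Finset.mem_filter]
    rcases hX.1 with h | h
    · rw [h] at hX
      exact absurd hX.2 (Finset.notMem_empty y)
    · exact ⟨h, hX.2⟩
  have h7 := Finset.card_le_card h6
  have h8 : F.card ≤ F'.card := Finset.card_le_card (Finset.subset_insert _ _)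
  unfold Good at hgood
  omega

end Pool.Agent.Lib.MP_ff7426_co.K2
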