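import Pool.Agent.Lib.MP_ff7426_co.K2.Vertex

/-!
MP_ff7426_co (helper33): a vertex of minimum degree outside a small exceptional set lies in an edge
that is contained in at most half of the sets without isolated vertices.
-/

set_option autoImplicit false

namespace Pool.Agent.Lib.MP_ff7426_co.K2

variable {V : Type*} [DecidableEq V] [Fintype V]

theorem gg_lin2 : ∀ n : ℕ, 8 * n ≤ 3 * gg n + 8
  | 0 => by decide
  | 1 => by decide
  | 2 => by decide
  | 3 => by decide
  | 4 => by decide
  | n + 5 => by
      have h := gg_lin2 (n + 3)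
      have h1 : gg (n + 5) = 2 * gg (n + 3) := rfl
      omega

theorem gg_pos (n : ℕ) : 0 < gg n := by
  have := gg_mono (Nat.zero_le n)
  have h2 : gg 0 = 2 := rfl
  omega

theorem num1 {q B H R s D : ℕ} (hq : 1 ≤ q) (hB : B ≤ s + R) (hs : 3 * s ≤ 2 * D)
    (hR : gg q * R ≤ q * (2 * D)) (hH : 2 ^ q * H ≤ D) : B + H ≤ 2 * D := by
  rcases Nat.lt_or_ge q 2 with h | h
  · have hq1 : q = 1 := by omega
    subst hq1
    have h3 : gg 1 = 3 := rfl
    rw [h3] at hR
    omega
  · have h1 := gg_lin q
    have h2 : R ≤ D := by
      by_contra hcon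
      have h3 : D + 1 ≤ R := by omega
      have h4 : gg q * (D + 1) ≤ gg q * R := Nat.mul_le_mul_left _ h3
      have h5 : q * (2 * D) = (2 * q) * D := by ring
      have h6 : (2 * q) * D ≤ gg q * D := Nat.mul_le_mul_right _ h1
      have h7 := gg_pos q
      nlinarith
    have h3 : 4 ≤ 2 ^ q := by
      calc 4 = 2 ^ 2 := by norm_num
        _ ≤ 2 ^ q := Nat.pow_le_pow_right (by norm_num) h
    have h4 : 4 * H ≤ 2 ^ q * H := Nat.mul_le_mul_right _ h3
    omega

theorem num2 {q B H R s t D : ℕ} (hq : 1 ≤ q) (hB : B ≤ s + t + R) (hs : 2 * s ≤ D)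
    (ht : 2 * t ≤ D) (hR : gg q * R ≤ (q - 1) * (2 * D)) (hH : 2 ^ q * H ≤ D) :
    B + H ≤ 2 * D := by
  rcases Nat.lt_or_ge q 2 with h | h
  · have hq1 : q = 1 := by omega
    subst hq1
    have h3 : gg 1 = 3 := rfl
    rw [h3] at hR
    simp at hR
    omega
  · have h1 := gg_lin2 q
    obtain ⟨r, rfl⟩ : ∃ r, q = r + 1 := ⟨q - 1, by omega⟩
    have h8 : r + 1 - 1 = r := by omega
    rw [h8] at hR
    have h2 : 4 * R ≤ 3 * D := by
      by_contra hcon
      have h3 : 3 * D + 1 ≤ 4 * R := by omega
      have h4 : gg (r + 1) * (3 * D + 1) ≤ gg (r + 1) * (4 * R) := Nat.mul_le_mul_left _ h3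
      have h6 : (8 * r) * D ≤ (3 * gg (r + 1)) * D := Nat.mul_le_mul_right _ (by omega)
      have h7 := gg_pos (r + 1)
      nlinarith
    have h3 : 4 ≤ 2 ^ (r + 1) := by
      calc 4 = 2 ^ 2 := by norm_num
        _ ≤ 2 ^ (r + 1) := Nat.pow_le_pow_right (by norm_num) h
    have h4 : 4 * H ≤ 2 ^ (r + 1) * H := Nat.mul_le_mul_right _ h3
    omega

theorem num3 {q B H R R' s D : ℕ} (hB : B ≤ s + R) (hs : s ≤ D) (hRR : 3 * R ≤ 2 * R')
    (hR : gg q * R' ≤ q * (2 * D)) (hH : 3 * H ≤ D) : B + H ≤ 2 * D := by
  have h1 := gg_lin q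
  have h2 : R' ≤ D := by
    by_contra hcon
    have h3 : D + 1 ≤ R' := by omega
    have h4 : gg q * (D + 1) ≤ gg q * R' := Nat.mul_le_mul_left _ h3
    have h5 : q * (2 * D) = (2 * q) * D := by ring
    have h6 : (2 * q) * D ≤ gg q * D := Nat.mul_le_mul_right _ h1
    have h7 := gg_pos q
    nlinarith
  omega

theorem sum_bound {N : V → Finset V} {w : V} (J : Finset V) (q D m : ℕ)
    (hJ : ∀ j ∈ J, gg q * ss N w j ≤ 2 * D) (hm : J.card ≤ m) :
    gg q * ∑ j ∈ J, ss N w j ≤ m * (2 * D) := by
  rw [Finset.mul_sum]
  have h := Finset.sum_le_card_nsmul J (fun j => gg q * ss N w j) (2 * D) hJ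
  rw [smul_eq_mul] at h
  exact h.trans (Nat.mul_le_mul_right _ hm)

/-- vertices outside the exceptional set -/
theorem normal {N : V → Finset V} (hs : ∀ u v, u ∈ N v → v ∈ N u) {w : V} {E : Finset V}
    (hE : ∀ a ∈ E, ∃ b ∈ E, b ∈ N a) (hmin : ∀ v, v ∉ E → (N w).card ≤ (N v).card)
    {j : V} (hj : j ∈ N w) (hjE : j ∉ E) :
    gg ((N w).card - 1) * ss N w j ≤ 2 * dd N w j := by
  rcases Nat.lt_or_ge (N w).card 2 with hd | hd
  · have h1 : (N w).card - 1 = 0 := by omega
    rw [h1]
    have h2 := ss_le_one hs (w := w) (j := j)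
    have h3 : gg 0 = 2 := rfl
    rw [h3]
    omega
  · have h1 := ss_le hs (w := w) (j := j) (Q := (N j).erase w) (Finset.Subset.refl _) ?_
    · have h2 : ((N j).erase w).card = (N j).card - 1 :=
        Finset.card_erase_of_mem (hs _ _ hj)
      have h3 := hmin j hjE
      have h4 : gg ((N w).card - 1) ≤ gg ((N j).erase w).card := gg_mono (by omega)
      exact (Nat.mul_le_mul_right _ h4).trans h1
    · intro y hy
      by_contra hcon
      push Not at hcon
      obtain ⟨hy1, hy2⟩ := hcon
      have hwy : w ∉ N y := fun h => hy1 (hs _ _ h)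
      have h5 : N y ⊆ {j} := by
        intro z hz
        rw [Finset.mem_singleton]
        exact hy2 z hz (fun h => hwy (h ▸ hz))
      by_cases hyE : y ∈ E
      · obtain ⟨b, hb, hby⟩ := hE y hyE
        have := Finset.mem_singleton.1 (h5 hby)
        exact hjE (this ▸ hb)
      · have h6 := hmin y hyE
        have h7 := Finset.card_le_card h5
        rw [Finset.card_singleton] at h7
        omega

/-- the pendant path `w - b - a` -/
theorem pend_ss {N : V → Finset V} (hs : ∀ u v, u ∈ N v → v ∈ N u) {w a b j : V}
    (hbw : b ≠ w) (haw : a ≠ w) (hab : a ≠ b) (hb : b ∈ N w)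
    (hNb : N b = {w, a}) (hNa : N a = {b}) (hj : j ∈ N w) (hjb : j ≠ b) (hjw : j ≠ w) :
    3 * ((PP N w).filter (fun P => (j ∈ P ∧ ∀ z ∈ N j, z ∉ P) ∧
      ¬ (b ∈ P ∧ ∀ z ∈ N b, z ∉ P))).card ≤ 2 * ss N w j := by
  have haNw : a ∉ N w := by
    intro h
    have := hs _ _ h
    rw [hNa, Finset.mem_singleton] at this
    exact hbw this.symm
  have hja : j ≠ a := fun h => haNw (h ▸ hj)
  have hbj : b ∉ N j := by
    intro h
    have := hs _ _ h
    rw [hNb, Finset.mem_insert, Finset.mem_singleton] at this
    rcases this with h1 | h1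
    · exact hjw h1
    · exact hja h1
  have hdep : ∀ P ∈ PP N w, ((b ∈ P ∧ ∀ z ∈ N b, z ∉ P) ↔ (b ∈ P ∧ a ∉ P)) := by
    intro P hP
    rw [hNb]
    constructor
    · rintro ⟨h1, h2⟩
      exact ⟨h1, h2 a (by simp)⟩
    · rintro ⟨h1, h2⟩
      refine ⟨h1, fun z hz => ?_⟩
      rw [Finset.mem_insert, Finset.mem_singleton] at hz
      rcases hz with rfl | rfl
      · exact (mem_PP.1 hP).1
      · exact h2
  unfold ss
  set S := (PP N w).filter (fun P => j ∈ P ∧ ∀ z ∈ N j, z ∉ P) with hS
  have hset : (PP N w).filter (fun P => (j ∈ P ∧ ∀ z ∈ N j, z ∉ P) ∧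
      ¬ (b ∈ P ∧ ∀ z ∈ N b, z ∉ P)) = S.filter (fun P => ¬ (b ∈ P ∧ a ∉ P)) := by
    ext P
    rw [hS, Finset.mem_filter, Finset.mem_filter, Finset.mem_filter]
    constructor
    · rintro ⟨h1, h2, h3⟩
      exact ⟨⟨h1, h2⟩, fun h => h3 ((hdep P h1).2 h)⟩
    · rintro ⟨⟨h1, h2⟩, h3⟩
      exact ⟨h1, h2, fun h => h3 ((hdep P h1).1 h)⟩
  rw [hset]
  have hsp := Finset.card_filter_add_card_filter_not (s := S) (fun P => b ∈ P ∧ a ∉ P)
  have hsp2 := Finset.card_filter_add_card_filter_not
    (s := S.filter (fun P => ¬ (b ∈ P ∧ a ∉ P))) (fun P => b ∈ P)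
  have hA0 : ((S.filter (fun P => ¬ (b ∈ P ∧ a ∉ P))).filter (fun P => ¬ b ∈ P)).card ≤
      (S.filter (fun P => b ∈ P ∧ a ∉ P)).card := by
    refine Finset.card_le_card_of_injOn (fun P => insert b P) ?_ ?_
    · intro P hP
      rw [Finset.mem_coe, Finset.mem_filter, Finset.mem_filter, hS, Finset.mem_filter] at hP
      obtain ⟨⟨⟨h1, h2, h3⟩, _⟩, h4⟩ := hP
      rw [mem_PP] at h1
      have haP : a ∉ P := by
        intro h
        rcases h1.2 a h with h5 | ⟨z, hz, hzP⟩
        · exact haNw h5
        · rw [hNa, Finset.mem_singleton] at hz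
          exact h4 (hz ▸ hzP)
      rw [Finset.mem_coe, Finset.mem_filter, hS, Finset.mem_filter, mem_PP]
      refine ⟨⟨⟨?_, ?_⟩, ?_, ?_⟩, Finset.mem_insert_self _ _, ?_⟩
      · intro h
        rw [Finset.mem_insert] at h
        rcases h with h | h
        · exact hbw h.symm
        · exact h1.1 h
      · intro v hv
        rw [Finset.mem_insert] at hv
        rcases hv with rfl | hv
        · exact Or.inl hb
        · rcases h1.2 v hv with h5 | ⟨z, hz, hzP⟩
          · exact Or.inl h5
          · exact Or.inr ⟨z, hz, Finset.mem_insert_of_mem hzP⟩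
      · exact Finset.mem_insert_of_mem h2
      · intro z hz h
        rw [Finset.mem_insert] at h
        rcases h with rfl | h
        · exact hbj hz
        · exact h3 z hz h
      · intro h
        rw [Finset.mem_insert] at h
        rcases h with h | h
        · exact hab h
        · exact haP h
    · intro P hP P' hP' heq
      rw [Finset.mem_coe, Finset.mem_filter] at hP hP'
      simp only at heq
      rw [← Finset.erase_insert hP.2, ← Finset.erase_insert hP'.2, heq]
  have hA2 : ((S.filter (fun P => ¬ (b ∈ P ∧ a ∉ P))).filter (fun P => b ∈ P)).card ≤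
      (S.filter (fun P => b ∈ P ∧ a ∉ P)).card := by
    refine Finset.card_le_card_of_injOn (fun P => P.erase a) ?_ ?_
    · intro P hP
      rw [Finset.mem_coe, Finset.mem_filter, Finset.mem_filter, hS, Finset.mem_filter] at hP
      obtain ⟨⟨⟨h1, h2, h3⟩, h5⟩, h4⟩ := hP
      rw [mem_PP] at h1
      rw [Finset.mem_coe, Finset.mem_filter, hS, Finset.mem_filter, mem_PP]
      refine ⟨⟨⟨fun h => h1.1 (Finset.mem_of_mem_erase h), ?_⟩,
        Finset.mem_erase.2 ⟨hja, h2⟩, fun z hz h => h3 z hz (Finset.mem_of_mem_erase h)⟩,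
        Finset.mem_erase.2 ⟨Ne.symm hab, h4⟩, Finset.notMem_erase a P⟩
      intro v hv
      rcases h1.2 v (Finset.mem_of_mem_erase hv) with h6 | ⟨z, hz, hzP⟩
      · exact Or.inl h6
      · by_cases hza : z = a
        · left
          have h7 := hs _ _ (hza ▸ hz)
          rw [hNa, Finset.mem_singleton] at h7
          exact h7 ▸ hb
        · exact Or.inr ⟨z, hz, Finset.mem_erase.2 ⟨hza, hzP⟩⟩
    · intro P hP P' hP' heq
      rw [Finset.mem_coe, Finset.mem_filter, Finset.mem_filter] at hP hP'
      simp only at heq
      have h1 : a ∈ P := by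
        by_contra h
        exact hP.1.2 ⟨hP.2, h⟩
      have h2 : a ∈ P' := by
        by_contra h
        exact hP'.1.2 ⟨hP'.2, h⟩
      rw [← Finset.insert_erase h1, ← Finset.insert_erase h2, heq]
  omega

theorem pend_hh {N : V → Finset V} (hs : ∀ u v, u ∈ N v → v ∈ N u) {w a b j : V}
    (hbw : b ≠ w) (haw : a ≠ w) (hab : a ≠ b) (hb : b ∈ N w)
    (hNb : N b = {w, a}) (hNa : N a = {b}) (hj : j ∈ N w) (hjb : j ≠ b) :
    3 * hh N w ≤ dd N w j := by
  have haNw : a ∉ N w := by
    intro h
    have := hs _ _ h
    rw [hNa, Finset.mem_singleton] at this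
    exact hbw this.symm
  have hja : j ≠ a := fun h => haNw (h ▸ hj)
  unfold hh dd
  set S := (PP N w).filter (fun P => w ∉ N w ∧ ∀ z ∈ N w, z ∉ P) with hS
  set D := (PP N w).filter (fun P => j ∉ P) with hD
  have hsp := Finset.card_filter_add_card_filter_not (s := D) (fun P => b ∈ P)
  have hsp2 := Finset.card_filter_add_card_filter_not (s := D.filter (fun P => b ∈ P))
    (fun P => a ∈ P)
  have hbase : ∀ P ∈ S, (w ∉ P ∧ ∀ v ∈ P, v ∈ N w ∨ ∃ z ∈ N v, z ∈ P) ∧ b ∉ P ∧ j ∉ P ∧ a ∉ P := by
    intro P hP
    rw [hS, Finset.mem_filter, mem_PP] at hP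
    refine ⟨hP.1, hP.2.2 b hb, hP.2.2 j hj, fun h => ?_⟩
    rcases hP.1.2 a h with h5 | ⟨z, hz, hzP⟩
    · exact haNw h5
    · rw [hNa, Finset.mem_singleton] at hz
      exact hP.2.2 b hb (hz ▸ hzP)
  have h1 : S.card ≤ (D.filter (fun P => ¬ b ∈ P)).card := by
    refine Finset.card_le_card ?_
    intro P hP
    obtain ⟨h1, h2, h3, h4⟩ := hbase P hP
    rw [Finset.mem_filter, hD, Finset.mem_filter, mem_PP]
    exact ⟨⟨h1, h3⟩, h2⟩
  have h2 : S.card ≤ ((D.filter (fun P => b ∈ P)).filter (fun P => ¬ a ∈ P)).card := by
    refine Finset.card_le_card_of_injOn (fun P => insert b P) ?_ ?_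
    · intro P hP
      obtain ⟨h1, h2, h3, h4⟩ := hbase P hP
      rw [Finset.mem_coe, Finset.mem_filter, Finset.mem_filter, hD, Finset.mem_filter, mem_PP]
      refine ⟨⟨⟨⟨?_, ?_⟩, ?_⟩, Finset.mem_insert_self _ _⟩, ?_⟩
      · intro h
        rw [Finset.mem_insert] at h
        rcases h with h | h
        · exact hbw h.symm
        · exact h1.1 h
      · intro v hv
        rw [Finset.mem_insert] at hv
        rcases hv with rfl | hv
        · exact Or.inl hb
        · rcases h1.2 v hv with h5 | ⟨z, hz, hzP⟩
          · exact Or.inl h5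
          · exact Or.inr ⟨z, hz, Finset.mem_insert_of_mem hzP⟩
      · intro h
        rw [Finset.mem_insert] at h
        rcases h with h | h
        · exact hjb h
        · exact h3 h
      · intro h
        rw [Finset.mem_insert] at h
        rcases h with h | h
        · exact hab h
        · exact h4 h
    · intro P hP P' hP' heq
      simp only at heq
      rw [← Finset.erase_insert (hbase P hP).2.1, ← Finset.erase_insert (hbase P' hP').2.1, heq]
  have h3 : S.card ≤ ((D.filter (fun P => b ∈ P)).filter (fun P => a ∈ P)).card := by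
    refine Finset.card_le_card_of_injOn (fun P => insert a (insert b P)) ?_ ?_
    · intro P hP
      obtain ⟨h1, h2, h3, h4⟩ := hbase P hP
      rw [Finset.mem_coe, Finset.mem_filter, Finset.mem_filter, hD, Finset.mem_filter, mem_PP]
      refine ⟨⟨⟨⟨?_, ?_⟩, ?_⟩, by simp⟩, by simp⟩
      · intro h
        rw [Finset.mem_insert, Finset.mem_insert] at h
        rcases h with h | h | h
        · exact haw h.symm
        · exact hbw h.symm
        · exact h1.1 h
      · intro v hv
        rw [Finset.mem_insert, Finset.mem_insert] at hv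
        rcases hv with rfl | rfl | hv
        · exact Or.inr ⟨b, by rw [hNa]; simp, by simp⟩
        · exact Or.inl hb
        · rcases h1.2 v hv with h5 | ⟨z, hz, hzP⟩
          · exact Or.inl h5
          · exact Or.inr ⟨z, hz, by simp [hzP]⟩
      · intro h
        rw [Finset.mem_insert, Finset.mem_insert] at h
        rcases h with h | h | h
        · exact hja h
        · exact hjb h
        · exact h3 h
    · intro P hP P' hP' heq
      obtain ⟨_, h2, h3, h4⟩ := hbase P hP
      obtain ⟨_, h2', h3', h4'⟩ := hbase P' hP'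
      simp only at heq
      have hk : ∀ R : Finset V, b ∉ R → a ∉ R →
          ((insert a (insert b R)).erase a).erase b = R := by
        intro R hb hR
        rw [Finset.erase_insert (by simp [hab, hR]), Finset.erase_insert hb]
      rw [← hk P h2 h4, ← hk P' h2' h4', heq]
  omega

/-- a vertex of minimum degree outside the exceptional set lies in a good edge -/
theorem vertex {N : V → Finset V} (hs : ∀ u v, u ∈ N v → v ∈ N u) {w : V} {E : Finset V}
    (hE2 : E.card ≤ 2) (hE : ∀ a ∈ E, ∃ b ∈ E, b ∈ N a) (hw : w ∉ E) (hne : (N w).Nonempty)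
    (hmin : ∀ v, v ∉ E → (N w).card ≤ (N v).card) : ∃ j ∈ N w, Good N w j := by
  rcases ((N w).erase w).eq_empty_or_nonempty with he | hne2
  · -- only a loop
    have huw : ∀ u ∈ N w, u = w := by
      intro u hu
      by_contra h
      have : u ∈ (N w).erase w := Finset.mem_erase.2 ⟨h, hu⟩
      rw [he] at this
      exact Finset.notMem_empty _ this
    have hww : w ∈ N w := by
      obtain ⟨u, hu⟩ := hne
      have h := huw u hu
      rw [h] at hu
      exact hu
    have h1 : N w = {w} := by
      ext z
      rw [Finset.mem_singleton]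
      exact ⟨huw z, fun h => by rw [h]; exact hww⟩
    exact ⟨w, by rw [h1]; simp, good_loop h1 hs⟩
  obtain ⟨j0, hj0, hmax⟩ := Finset.exists_max_image ((N w).erase w) (fun j => dd N w j) hne2
  have hj0w := Finset.mem_erase.1 hj0
  refine ⟨j0, hj0w.2, good_of hs hj0w.2 hj0w.1 ?_⟩
  set D := dd N w j0 with hD
  have hB := bb_le (N := N) (w := w)
  have hH := hh_le (N := N) (w := w) hj0w.2
  rw [← hD] at hH
  set d := (N w).card with hd
  have hcard : ((N w).erase w).card ≤ d := Finset.card_le_card (Finset.erase_subset _ _)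
  have hdpos : 1 ≤ d := Finset.card_pos.2 hne
  -- normal vertices
  have hnorm : ∀ j ∈ (N w).erase w, j ∉ E → gg (d - 1) * ss N w j ≤ 2 * D := by
    intro j hj hjE
    have h1 := normal hs hE hmin (Finset.mem_of_mem_erase hj) hjE
    have h2 := hmax j hj
    rw [hd]
    exact h1.trans (Nat.mul_le_mul_left 2 h2)
  by_cases hex : ∃ b ∈ (N w).erase w, b ∈ E ∧ b ∉ N b
  · obtain ⟨b, hb, hbE, hbb⟩ := hex
    have hbw := Finset.mem_erase.1 hb
    obtain ⟨a, haE, hab⟩ := hE b hbE
    have hane : a ≠ b := fun h => hbb (h ▸ hab)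
    have haw : a ≠ w := fun h => hw (h ▸ haE)
    have hEab : ∀ u ∈ E, u = a ∨ u = b := by
      intro u hu
      by_contra hcon
      push Not at hcon
      have h1 : ({u, a, b} : Finset V) ⊆ E := by
        intro z hz
        rw [Finset.mem_insert, Finset.mem_insert, Finset.mem_singleton] at hz
        rcases hz with rfl | rfl | rfl
        · exact hu
        · exact haE
        · exact hbE
      have h2 := Finset.card_le_card h1
      rw [Finset.card_insert_of_notMem (by simp [hcon.1, hcon.2]),
        Finset.card_insert_of_notMem (by simp [hane]), Finset.card_singleton] at h2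
      omega
    have hbd : dd N w b ≤ D := by
      have := hmax b hb
      simpa [hD] using this
    by_cases haN : a ∈ N w
    · -- both exceptional vertices are neighbours of `w`
      have ha : a ∈ (N w).erase w := Finset.mem_erase.2 ⟨haw, haN⟩
      have had : dd N w a ≤ D := by
        have := hmax a ha
        simpa [hD] using this
      have h1 : 2 * ss N w b ≤ dd N w b := ss_le_half hs hab haN haw
      have h2 : 2 * ss N w a ≤ dd N w a := ss_le_half hs (hs _ _ hab) hbw.2 hbw.1
      have h3 : ∑ j ∈ (N w).erase w, ss N w j =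
          ss N w b + (ss N w a + ∑ j ∈ (((N w).erase w).erase b).erase a, ss N w j) := by
        rw [← Finset.add_sum_erase _ _ hb, ← Finset.add_sum_erase _ _
          (Finset.mem_erase.2 ⟨hane, ha⟩)]
      have hc1 : ((((N w).erase w).erase b).erase a).card ≤ d - 1 - 1 := by
        rw [Finset.card_erase_of_mem (Finset.mem_erase.2 ⟨hane, ha⟩),
          Finset.card_erase_of_mem hb]
        omega
      have h4 := sum_bound (N := N) (w := w) ((((N w).erase w).erase b).erase a) (d - 1) D
        (d - 1 - 1) ?_ hc1
      · have hd2 : 2 ≤ d := by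
          have h5 : ({a, b} : Finset V) ⊆ N w := by
            intro z hz
            rw [Finset.mem_insert, Finset.mem_singleton] at hz
            rcases hz with rfl | rfl
            · exact haN
            · exact hbw.2
          have h6 := Finset.card_le_card h5
          rw [Finset.card_insert_of_notMem (by simp [hane]), Finset.card_singleton] at h6
          exact h6
        refine num2 (q := d - 1) (by omega) (s := ss N w b) (t := ss N w a) ?_ (by omega)
          (by omega) h4 hH
        omega
      · intro j hj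
        rw [Finset.mem_erase, Finset.mem_erase] at hj
        refine hnorm j hj.2.2 (fun hjE => ?_)
        rcases hEab j hjE with h5 | h5
        · exact hj.1 h5
        · exact hj.2.1 h5
    · -- exactly one exceptional neighbour
      have h3 : ∑ j ∈ (N w).erase w, ss N w j =
          ss N w b + ∑ j ∈ ((N w).erase w).erase b, ss N w j := by
        rw [← Finset.add_sum_erase _ _ hb]
      have hnormE : ∀ j ∈ ((N w).erase w).erase b, gg (d - 1) * ss N w j ≤ 2 * D := by
        intro j hj
        rw [Finset.mem_erase] at hj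
        refine hnorm j hj.2 (fun hjE => ?_)
        rcases hEab j hjE with h5 | h5
        · exact haN (h5 ▸ Finset.mem_of_mem_erase hj.2)
        · exact hj.1 h5
      have hc1 : (((N w).erase w).erase b).card ≤ d - 1 := by
        rw [Finset.card_erase_of_mem hb]
        omega
      have h4 := sum_bound (N := N) (w := w) (((N w).erase w).erase b) (d - 1) D
        (d - 1) hnormE hc1
      rcases Nat.lt_or_ge d 2 with hd1 | hd2
      · -- degree one
        have hd1' : d = 1 := by omega
        have h5 : ((N w).erase w).erase b = ∅ := by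
          rw [← Finset.card_eq_zero]
          omega
        rw [h5, Finset.sum_empty, add_zero] at h3
        have h6 := ss_le_one hs (w := w) (j := b)
        rw [hd1'] at hH
        simp only [Nat.sub_self, pow_zero, one_mul] at hH
        omega
      · by_cases hy : ∃ y ∈ (N b).erase w, y ∈ N w ∨ ∃ z ∈ N y, z ≠ w ∧ z ≠ b
        · obtain ⟨y, hy1, hy2⟩ := hy
          have h5 := ss_le hs (w := w) (j := b) (Q := {y})
            (Finset.singleton_subset_iff.2 hy1) (by
              intro u hu
              rw [Finset.mem_singleton] at hu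
              exact hu ▸ hy2)
          have h6 : gg ({y} : Finset V).card = 3 := rfl
          rw [h6] at h5
          exact num1 (q := d - 1) (by omega) (s := ss N w b) (by rw [← h3]; exact hB)
            (by omega) h4 hH
        · push Not at hy
          -- pendant path
          have hwNb : w ∈ N b := hs _ _ hbw.2
          have hyN : ∀ y ∈ N b, y ≠ w → N y = {b} := by
            intro y hyb hyw
            obtain ⟨h5, h6⟩ := hy y (Finset.mem_erase.2 ⟨hyw, hyb⟩)
            have hwy : w ∉ N y := fun h => h5 (hs _ _ h)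
            ext z
            rw [Finset.mem_singleton]
            constructor
            · intro hz
              exact h6 z hz (fun h => hwy (h ▸ hz))
            · rintro rfl
              exact hs _ _ hyb
          have hNa : N a = {b} := hyN a hab haw
          have hNb : N b = {w, a} := by
            ext z
            rw [Finset.mem_insert, Finset.mem_singleton]
            constructor
            · intro hz
              by_cases hzw : z = w
              · exact Or.inl hzw
              · right
                have h5 := hyN z hz hzw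
                by_contra hza
                have hzE : z ∉ E := by
                  intro h
                  rcases hEab z h with h6 | h6
                  · exact hza h6
                  · exact hbb (h6 ▸ hz)
                have h6 := hmin z hzE
                rw [h5, Finset.card_singleton] at h6
                omega
            · rintro (rfl | rfl)
              · exact hwNb
              · exact hab
          have hB2 : bb N w ≤ ss N w b + ∑ j ∈ ((N w).erase w).erase b,
              ((PP N w).filter (fun P => (j ∈ P ∧ ∀ z ∈ N j, z ∉ P) ∧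
                ¬ (b ∈ P ∧ ∀ z ∈ N b, z ∉ P))).card := by
            unfold bb ss
            have h5 : (PP N w).filter (fun P => Bd N w P) ⊆
                (PP N w).filter (fun P => b ∈ P ∧ ∀ z ∈ N b, z ∉ P) ∪
                (((N w).erase w).erase b).biUnion (fun j =>
                  (PP N w).filter (fun P => (j ∈ P ∧ ∀ z ∈ N j, z ∉ P) ∧
                    ¬ (b ∈ P ∧ ∀ z ∈ N b, z ∉ P))) := by
              intro P hP
              rw [Finset.mem_filter] at hP
              obtain ⟨hP1, j, hj, hjP, hjz⟩ := hP
              rw [Finset.mem_union, Finset.mem_filter, Finset.mem_biUnion]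
              by_cases hbP : b ∈ P ∧ ∀ z ∈ N b, z ∉ P
              · exact Or.inl ⟨hP1, hbP⟩
              · right
                refine ⟨j, ?_, Finset.mem_filter.2 ⟨hP1, ⟨hjP, hjz⟩, hbP⟩⟩
                rw [Finset.mem_erase, Finset.mem_erase]
                refine ⟨?_, ?_, hj⟩
                · rintro rfl
                  exact hbP ⟨hjP, hjz⟩
                · rintro rfl
                  exact (mem_PP.1 hP1).1 hjP
            refine (Finset.card_le_card h5).trans ((Finset.card_union_le _ _).trans ?_)
            exact Nat.add_le_add_left Finset.card_biUnion_le _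
          have h6 : 3 * ∑ j ∈ ((N w).erase w).erase b,
              ((PP N w).filter (fun P => (j ∈ P ∧ ∀ z ∈ N j, z ∉ P) ∧
                ¬ (b ∈ P ∧ ∀ z ∈ N b, z ∉ P))).card ≤
              2 * ∑ j ∈ ((N w).erase w).erase b, ss N w j := by
            rw [Finset.mul_sum, Finset.mul_sum]
            refine Finset.sum_le_sum ?_
            intro j hj
            rw [Finset.mem_erase, Finset.mem_erase] at hj
            exact pend_ss hs hbw.1 haw hane hbw.2 hNb hNa hj.2.2 hj.1 hj.2.1
          have h7 : 3 * hh N w ≤ D := by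
            by_cases hww : w ∈ N w
            · have h0 : hh N w = 0 := by
                unfold hh
                rw [Finset.card_eq_zero, Finset.filter_eq_empty_iff]
                rintro P _ ⟨h1, _⟩
                exact h1 hww
              rw [h0]
              omega
            · have h8 : ((N w).erase b).Nonempty := by
                rw [← Finset.card_pos, Finset.card_erase_of_mem hbw.2]
                omega
              obtain ⟨j, hj⟩ := h8
              rw [Finset.mem_erase] at hj
              have hjw : j ≠ w := fun h => hww (h ▸ hj.2)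
              have h9 := pend_hh hs hbw.1 haw hane hbw.2 hNb hNa hj.2 hj.1
              have h10 := hmax j (Finset.mem_erase.2 ⟨hjw, hj.2⟩)
              exact h9.trans h10
          exact num3 (q := d - 1) hB2 ((ss_le_one hs).trans hbd) h6 h4 h7
  · -- no exceptional neighbour
    push Not at hex
    have hall : ∀ j ∈ (N w).erase w, gg (d - 1) * ss N w j ≤ 2 * D := by
      intro j hj
      by_cases hjE : j ∈ E
      · rw [ss_zero (hex j hj hjE)]
        simp
      · exact hnorm j hj hjE
    have h3 : ∑ j ∈ (N w).erase w, ss N w j =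
        ss N w j0 + ∑ j ∈ ((N w).erase w).erase j0, ss N w j := by
      rw [← Finset.add_sum_erase _ _ hj0]
    have hc1 : (((N w).erase w).erase j0).card ≤ d - 1 := by
      rw [Finset.card_erase_of_mem hj0]
      omega
    have h4 := sum_bound (N := N) (w := w) (((N w).erase w).erase j0) (d - 1) D
      (d - 1) (fun j hj => hall j (Finset.mem_of_mem_erase hj)) hc1
    rcases Nat.lt_or_ge d 2 with hd1 | hd2
    · have hd1' : d = 1 := by omega
      have h5 : ((N w).erase w).erase j0 = ∅ := by
        rw [← Finset.card_eq_zero]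
        omega
      rw [h5, Finset.sum_empty, add_zero] at h3
      have h6 := ss_le_one hs (w := w) (j := j0)
      rw [hd1'] at hH
      simp only [Nat.sub_self, pow_zero, one_mul] at hH
      omega
    · have h5 := hall j0 hj0
      have h6 : gg 1 ≤ gg (d - 1) := gg_mono (by omega)
      have h7 : gg 1 = 3 := rfl
      rw [h7] at h6
      have h8 : 3 * ss N w j0 ≤ gg (d - 1) * ss N w j0 := Nat.mul_le_mul_right _ h6
      exact num1 (q := d - 1) (by omega) (s := ss N w j0) (by rw [← h3]; exact hB)
        (by omega) h4 hH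

end Pool.Agent.Lib.MP_ff7426_co.K2
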