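import Mathlib

/-!
MP_ff7426_co, Q1 for union-closed families in which every element lies in at most two generators
(helper33). The graph lemma: sets without isolated vertices that avoid a given set `Q`.
-/

set_option autoImplicit false

namespace Pool.Agent.Lib.MP_ff7426_co.K2

variable {V : Type*} [DecidableEq V]

/-- the sets `P ⊆ X` all of whose vertices are free (in `L`) or have a neighbour in `P` -/
def Fam (N : V → Finset V) (X L : Finset V) : Finset (Finset V) :=
  X.powerset.filter (fun P => ∀ v ∈ P, v ∈ L ∨ ∃ z ∈ N v, z ∈ P)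

theorem mem_Fam {N : V → Finset V} {X L P : Finset V} :
    P ∈ Fam N X L ↔ P ⊆ X ∧ ∀ v ∈ P, v ∈ L ∨ ∃ z ∈ N v, z ∈ P := by
  rw [Fam, Finset.mem_filter, Finset.mem_powerset]

/-- the growth function `2, 3, 4, 6, 8, 12, …` -/
def gg : ℕ → ℕ
  | 0 => 2
  | 1 => 3
  | n + 2 => 2 * gg n

theorem gg_two (n : ℕ) : gg (n + 2) = 2 * gg n := rfl

theorem gg_step : ∀ n : ℕ, 2 * gg (n + 1) ≤ 3 * gg n
  | 0 => by decide
  | 1 => by decide
  | n + 2 => by
      have h := gg_step n
      have h1 : gg (n + 2 + 1) = 2 * gg (n + 1) := rfl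
      have h2 : gg (n + 2) = 2 * gg n := rfl
      omega

theorem gg_lin : ∀ n : ℕ, 2 * n ≤ gg n
  | 0 => by decide
  | 1 => by decide
  | 2 => by decide
  | 3 => by decide
  | n + 4 => by
      have h := gg_lin (n + 2)
      have h1 : gg (n + 4) = 2 * gg (n + 2) := rfl
      omega

theorem gg_succ_le : ∀ n : ℕ, gg n ≤ gg (n + 1)
  | 0 => by decide
  | 1 => by decide
  | n + 2 => by
      have h := gg_succ_le n
      have h1 : gg (n + 2 + 1) = 2 * gg (n + 1) := rfl
      have h2 : gg (n + 2) = 2 * gg n := rfl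
      omega

theorem gg_mono : Monotone gg := monotone_nat_of_le_succ gg_succ_le

theorem gg_le_pow : ∀ n : ℕ, gg n ≤ 2 ^ (n + 1)
  | 0 => by decide
  | 1 => by decide
  | n + 2 => by
      have h := gg_le_pow n
      have h2 : gg (n + 2) = 2 * gg n := rfl
      have h3 : 2 ^ (n + 2 + 1) = 4 * 2 ^ (n + 1) := by ring
      omega

/-- the admissible sets avoiding `Q` -/
def avs (N : V → Finset V) (X L Q : Finset V) : Finset (Finset V) :=
  (Fam N X L).filter (fun P => ∀ y ∈ Q, y ∉ P)

theorem mem_avs {N : V → Finset V} {X L Q P : Finset V} :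
    P ∈ avs N X L Q ↔ P ∈ Fam N X L ∧ ∀ y ∈ Q, y ∉ P := by
  rw [avs, Finset.mem_filter]

/-- the number of admissible sets avoiding `Q` -/
def av (N : V → Finset V) (X L Q : Finset V) : ℕ := (avs N X L Q).card

theorem add_mem {N : V → Finset V} (hs : ∀ u v, u ∈ N v → v ∈ N u) {X L P : Finset V} {y z : V}
    (hP : P ∈ Fam N X L) (hyX : y ∈ X) (hz : (y ∈ L ∧ z = y) ∨ (z ∈ N y ∧ z ∈ X)) :
    insert y (insert z P) ∈ Fam N X L := by
  rw [mem_Fam] at hP ⊢
  refine ⟨?_, ?_⟩
  · intro v hv
    rw [Finset.mem_insert, Finset.mem_insert] at hv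
    rcases hv with rfl | rfl | hv
    · exact hyX
    · rcases hz with hz | hz
      · exact hz.2 ▸ hyX
      · exact hz.2
    · exact hP.1 hv
  · intro v hv
    rw [Finset.mem_insert, Finset.mem_insert] at hv
    have hyz : ∀ v, v = y ∨ v = z → v ∈ L ∨ ∃ u ∈ N v, u ∈ insert y (insert z P) := by
      rintro v (rfl | rfl)
      · rcases hz with hz | hz
        · exact Or.inl hz.1
        · exact Or.inr ⟨z, hz.1, by simp⟩
      · rcases hz with hz | hz
        · exact Or.inl (hz.2 ▸ hz.1)
        · exact Or.inr ⟨y, hs _ _ hz.1, by simp⟩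
    rcases hv with hv | hv | hv
    · exact hyz v (Or.inl hv)
    · exact hyz v (Or.inr hv)
    · rcases hP.2 v hv with h | ⟨u, hu, huP⟩
      · exact Or.inl h
      · exact Or.inr ⟨u, hu, by simp [huP]⟩

theorem stepA {N : V → Finset V} (hs : ∀ u v, u ∈ N v → v ∈ N u) {X L Q : Finset V} {y z : V}
    (hyQ : y ∈ Q) (hyX : y ∈ X) (hz : (y ∈ L ∧ z = y) ∨ (z ∈ N y ∧ z ∈ X))
    (hzQ : z ∉ Q.erase y) : 3 * av N X L Q ≤ 2 * av N X L (Q.erase y) := by
  set A := (Fam N X L).filter (fun P => ∀ u ∈ Q, u ∉ P) with hA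
  set A' := (Fam N X L).filter (fun P => ∀ u ∈ Q.erase y, u ∉ P) with hA'
  have hsplit := Finset.card_filter_add_card_filter_not (s := A') (fun P => y ∈ P)
  have h1 : A'.filter (fun P => ¬ y ∈ P) = A := by
    ext P
    rw [hA', hA, Finset.mem_filter, Finset.mem_filter, Finset.mem_filter]
    constructor
    · rintro ⟨⟨h1, h2⟩, h3⟩
      refine ⟨h1, fun u hu => ?_⟩
      by_cases huy : u = y
      · exact huy ▸ h3
      · exact h2 u (Finset.mem_erase.2 ⟨huy, hu⟩)
    · rintro ⟨h1, h2⟩
      exact ⟨⟨h1, fun u hu => h2 u (Finset.mem_of_mem_erase hu)⟩, h2 y hyQ⟩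
  have h2 : A.card ≤ 2 * (A'.filter (fun P => y ∈ P)).card := by
    have h3 : A.card ≤ 2 * (A.image (fun P => insert y (insert z P))).card := by
      refine Finset.card_le_mul_card_image A 2 ?_
      intro P' _
      have hsub : (A.filter (fun P => insert y (insert z P) = P')) ⊆
          {P'.erase y, (P'.erase y).erase z} := by
        intro P hP
        rw [Finset.mem_filter, hA, Finset.mem_filter] at hP
        obtain ⟨⟨_, hPQ⟩, rfl⟩ := hP
        have hyP : y ∉ P := hPQ y hyQ
        rw [Finset.mem_insert, Finset.mem_singleton]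
        by_cases hzP : z ∈ P
        · left
          ext u
          simp only [Finset.mem_erase, Finset.mem_insert]
          constructor
          · intro hu
            exact ⟨fun h => hyP (h ▸ hu), Or.inr (Or.inr hu)⟩
          · rintro ⟨h1, h2 | h2 | h2⟩
            · exact absurd h2 h1
            · exact h2 ▸ hzP
            · exact h2
        · right
          ext u
          simp only [Finset.mem_erase, Finset.mem_insert]
          constructor
          · intro hu
            exact ⟨fun h => hzP (h ▸ hu), fun h => hyP (h ▸ hu), Or.inr (Or.inr hu)⟩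
          · rintro ⟨h0, h1, h2 | h2 | h2⟩
            · exact absurd h2 h1
            · exact absurd h2 h0
            · exact h2
      exact (Finset.card_le_card hsub).trans Finset.card_le_two
    have h4 : (A.image (fun P => insert y (insert z P))) ⊆ A'.filter (fun P => y ∈ P) := by
      intro P' hP'
      rw [Finset.mem_image] at hP'
      obtain ⟨P, hP, rfl⟩ := hP'
      rw [hA, Finset.mem_filter] at hP
      rw [Finset.mem_filter, hA', Finset.mem_filter]
      refine ⟨⟨add_mem hs hP.1 hyX hz, ?_⟩, by simp⟩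
      intro u hu hmem
      rw [Finset.mem_insert, Finset.mem_insert] at hmem
      rcases hmem with h | h | h
      · exact (Finset.mem_erase.1 hu).1 h
      · exact hzQ (h ▸ hu)
      · exact hP.2 u (Finset.mem_of_mem_erase hu) h
    have h5 := Finset.card_le_card h4
    omega
  rw [h1] at hsplit
  have h6 : av N X L Q = A.card := rfl
  have h7 : av N X L (Q.erase y) = A'.card := rfl
  omega

theorem stepB {N : V → Finset V} (hs : ∀ u v, u ∈ N v → v ∈ N u) {X L Q : Finset V} {y z : V}
    (hyQ : y ∈ Q) (hyX : y ∈ X) (hz : z ∈ N y) (hzX : z ∈ X)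
    (hzQ : z ∈ Q.erase y) : 2 * av N X L Q ≤ av N X L ((Q.erase y).erase z) := by
  set A := (Fam N X L).filter (fun P => ∀ u ∈ Q, u ∉ P) with hA
  set A' := (Fam N X L).filter (fun P => ∀ u ∈ (Q.erase y).erase z, u ∉ P) with hA'
  have hsplit := Finset.card_filter_add_card_filter_not (s := A') (fun P => y ∈ P)
  have h1 : A ⊆ A'.filter (fun P => ¬ y ∈ P) := by
    intro P
    rw [hA', hA, Finset.mem_filter, Finset.mem_filter, Finset.mem_filter]
    rintro ⟨h1, h2⟩
    exact ⟨⟨h1, fun u hu => h2 u (Finset.mem_of_mem_erase (Finset.mem_of_mem_erase hu))⟩, h2 y hyQ⟩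
  have h2 : A.card ≤ (A'.filter (fun P => y ∈ P)).card := by
    refine Finset.card_le_card_of_injOn (fun P => insert y (insert z P)) ?_ ?_
    · intro P hP
      rw [Finset.mem_coe, hA, Finset.mem_filter] at hP
      rw [Finset.mem_coe, Finset.mem_filter, hA', Finset.mem_filter]
      refine ⟨⟨add_mem hs hP.1 hyX (Or.inr ⟨hz, hzX⟩), ?_⟩, by simp⟩
      intro u hu hmem
      rw [Finset.mem_insert, Finset.mem_insert] at hmem
      rw [Finset.mem_erase, Finset.mem_erase] at hu
      rcases hmem with h | h | h
      · exact hu.2.1 h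
      · exact hu.1 h
      · exact hP.2 u hu.2.2 h
    · intro P hP P' hP' heq
      rw [Finset.mem_coe, hA, Finset.mem_filter] at hP hP'
      have hback : ∀ R : Finset V, (∀ u ∈ Q, u ∉ R) →
          ((insert y (insert z R)).erase y).erase z = R := by
        intro R hR
        ext u
        simp only [Finset.mem_erase, Finset.mem_insert]
        constructor
        · rintro ⟨h0, h1, h2 | h2 | h2⟩
          · exact absurd h2 h1
          · exact absurd h2 h0
          · exact h2
        · intro hu
          exact ⟨fun h => hR z (Finset.mem_of_mem_erase hzQ) (h ▸ hu),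
            fun h => hR y hyQ (h ▸ hu), Or.inr (Or.inr hu)⟩
      simp only at heq
      rw [← hback P hP.2, ← hback P' hP'.2, heq]
  have h3 := Finset.card_le_card h1
  have h6 : av N X L Q = A.card := rfl
  have h7 : av N X L ((Q.erase y).erase z) = A'.card := rfl
  omega

/-- sequential switching -/
theorem seq {N : V → Finset V} (hs : ∀ u v, u ∈ N v → v ∈ N u) (X L : Finset V) :
    ∀ (q : ℕ) (Q : Finset V), Q.card = q → Q ⊆ X → (∀ y ∈ Q, y ∈ L ∨ ∃ z ∈ N y, z ∈ X) →
      gg q * av N X L Q ≤ 2 * (Fam N X L).card := by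
  intro q
  induction q using Nat.strong_induction_on with
  | _ q ih =>
    intro Q hcard hQX hQ
    rcases Q.eq_empty_or_nonempty with rfl | hne
    · rw [Finset.card_empty] at hcard
      subst hcard
      have h1 : av N X L ∅ ≤ (Fam N X L).card := Finset.card_filter_le _ _
      have h2 : gg 0 = 2 := rfl
      rw [h2]
      omega
    · by_cases hA : ∃ y ∈ Q, ∃ z, ((y ∈ L ∧ z = y) ∨ (z ∈ N y ∧ z ∈ X)) ∧ z ∉ Q.erase y
      · obtain ⟨y, hyQ, z, hz, hzQ⟩ := hA
        have hc1 : (Q.erase y).card = q - 1 := by rw [Finset.card_erase_of_mem hyQ, hcard]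
        have hpos : 0 < q := by rw [← hcard]; exact Finset.card_pos.2 hne
        have h1 := stepA hs (L := L) hyQ (hQX hyQ) hz hzQ
        have h2 := ih (q - 1) (by omega) (Q.erase y) hc1
          (fun u hu => hQX (Finset.mem_of_mem_erase hu))
          (fun u hu => hQ u (Finset.mem_of_mem_erase hu))
        have h3 := gg_step (q - 1)
        have h4 : q - 1 + 1 = q := by omega
        rw [h4] at h3
        have h5 : gg q * (3 * av N X L Q) ≤ gg q * (2 * av N X L (Q.erase y)) :=
          Nat.mul_le_mul_left _ h1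
        have h6 : 2 * gg q * av N X L (Q.erase y) ≤ 3 * gg (q - 1) * av N X L (Q.erase y) :=
          Nat.mul_le_mul_right _ h3
        nlinarith [h2, h5, h6]
      · push Not at hA
        obtain ⟨y, hyQ⟩ := hne
        have hyL : y ∉ L := by
          intro h
          have := hA y hyQ y (Or.inl ⟨h, rfl⟩)
          simp at this
        obtain ⟨z, hz, hzX⟩ := (hQ y hyQ).resolve_left hyL
        have hzQ : z ∈ Q.erase y := hA y hyQ z (Or.inr ⟨hz, hzX⟩)
        have hc1 : ((Q.erase y).erase z).card = q - 2 := by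
          rw [Finset.card_erase_of_mem hzQ, Finset.card_erase_of_mem hyQ, hcard]
          omega
        have h2q : 2 ≤ q := by
          have h1 : 0 < (Q.erase y).card := Finset.card_pos.2 ⟨z, hzQ⟩
          rw [Finset.card_erase_of_mem hyQ, hcard] at h1
          omega
        have h1 := stepB hs (L := L) hyQ (hQX hyQ) hz hzX hzQ
        have h2 := ih (q - 2) (by omega) _ hc1
          (fun u hu => hQX (Finset.mem_of_mem_erase (Finset.mem_of_mem_erase hu)))
          (fun u hu => hQ u (Finset.mem_of_mem_erase (Finset.mem_of_mem_erase hu)))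
        have h3 : gg q = 2 * gg (q - 2) := by
          have h4 := gg_two (q - 2)
          have h5 : q - 2 + 2 = q := by omega
          rw [h5] at h4
          exact h4
        rw [h3]
        have h5 : gg (q - 2) * (2 * av N X L Q) ≤
            gg (q - 2) * av N X L ((Q.erase y).erase z) := Nat.mul_le_mul_left _ h1
        nlinarith [h2, h5]

end Pool.Agent.Lib.MP_ff7426_co.K2
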