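import Pool.Agent.Lib.MP_ff7426_co.K2.Seq

/-!
MP_ff7426_co (helper33): the sets without isolated vertices seen from one vertex `w`.
-/

set_option autoImplicit false

namespace Pool.Agent.Lib.MP_ff7426_co.K2

variable {V : Type*} [DecidableEq V] [Fintype V]

/-- all sets without isolated vertices -/
def TT (N : V → Finset V) : Finset (Finset V) := Fam N Finset.univ ∅

theorem mem_TT {N : V → Finset V} {T : Finset V} :
    T ∈ TT N ↔ ∀ v ∈ T, ∃ z ∈ N v, z ∈ T := by
  rw [TT, mem_Fam]
  constructor
  · rintro ⟨_, h⟩ v hv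
    rcases h v hv with h1 | h1
    · exact absurd h1 (Finset.notMem_empty v)
    · exact h1
  · intro h
    exact ⟨Finset.subset_univ _, fun v hv => Or.inr (h v hv)⟩

/-- the sets missing `w` which are admissible when `w` is added and declared non-isolated -/
def PP (N : V → Finset V) (w : V) : Finset (Finset V) := Fam N (Finset.univ.erase w) (N w)

theorem mem_PP {N : V → Finset V} {w : V} {P : Finset V} :
    P ∈ PP N w ↔ w ∉ P ∧ ∀ v ∈ P, v ∈ N w ∨ ∃ z ∈ N v, z ∈ P := by
  rw [PP, mem_Fam]
  constructor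
  · rintro ⟨h1, h2⟩
    refine ⟨fun h => ?_, h2⟩
    exact Finset.notMem_erase w _ (h1 h)
  · rintro ⟨h1, h2⟩
    refine ⟨fun v hv => Finset.mem_erase.2 ⟨fun h => h1 (h ▸ hv), Finset.mem_univ v⟩, h2⟩

/-- `P` has a vertex depending on `w` -/
def Bd (N : V → Finset V) (w : V) (P : Finset V) : Prop :=
  ∃ j ∈ N w, j ∈ P ∧ ∀ z ∈ N j, z ∉ P

instance (N : V → Finset V) (w : V) : DecidablePred (Bd N w) := fun P => by
  unfold Bd; infer_instance

/-- number of sets with a vertex depending on `w` -/
def bb (N : V → Finset V) (w : V) : ℕ := ((PP N w).filter (fun P => Bd N w P)).card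

/-- number of sets that do not cover `w` -/
def hh (N : V → Finset V) (w : V) : ℕ :=
  ((PP N w).filter (fun P => w ∉ N w ∧ ∀ z ∈ N w, z ∉ P)).card

/-- number of sets missing `j` -/
def dd (N : V → Finset V) (w j : V) : ℕ := ((PP N w).filter (fun P => j ∉ P)).card

/-- number of sets containing `j` in which `j` depends on `w` -/
def ss (N : V → Finset V) (w j : V) : ℕ :=
  ((PP N w).filter (fun P => j ∈ P ∧ ∀ z ∈ N j, z ∉ P)).card

/-- the pair `a, b` is contained in at most half of the sets -/
def Good (N : V → Finset V) (a b : V) : Prop :=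
  2 * ((TT N).filter (fun T => a ∈ T ∧ b ∈ T)).card ≤ (TT N).card

theorem good_of {N : V → Finset V} (hs : ∀ u v, u ∈ N v → v ∈ N u) {w j : V} (hj : j ∈ N w)
    (hjw : j ≠ w) (h : bb N w + hh N w ≤ 2 * dd N w j) : Good N w j := by
  unfold Good
  have hT := Finset.card_filter_add_card_filter_not (s := TT N) (fun T => w ∈ T)
  have hB := Finset.card_filter_add_card_filter_not (s := PP N w) (fun P => Bd N w P)
  have hH := Finset.card_filter_add_card_filter_not (s := PP N w)
    (fun P => w ∉ N w ∧ ∀ z ∈ N w, z ∉ P)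
  have hD := Finset.card_filter_add_card_filter_not (s := PP N w) (fun P => j ∉ P)
  -- sets missing `w`
  have h1 : ((PP N w).filter (fun P => ¬ Bd N w P)).card ≤
      ((TT N).filter (fun T => ¬ w ∈ T)).card := by
    refine Finset.card_le_card ?_
    intro P hP
    rw [Finset.mem_filter, mem_PP] at hP
    rw [Finset.mem_filter, mem_TT]
    obtain ⟨⟨hwP, hP1⟩, hP2⟩ := hP
    refine ⟨fun v hv => ?_, hwP⟩
    rcases hP1 v hv with h1 | h1
    · by_contra hcon
      push Not at hcon
      exact hP2 ⟨v, h1, hv, hcon⟩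
    · exact h1
  -- sets containing `w`
  have h2 : ((PP N w).filter (fun P => ¬ (w ∉ N w ∧ ∀ z ∈ N w, z ∉ P))).card ≤
      ((TT N).filter (fun T => w ∈ T)).card := by
    refine Finset.card_le_card_of_injOn (fun P => insert w P) ?_ ?_
    · intro P hP
      rw [Finset.mem_coe, Finset.mem_filter, mem_PP] at hP
      rw [Finset.mem_coe, Finset.mem_filter, mem_TT]
      obtain ⟨⟨hwP, hP1⟩, hP2⟩ := hP
      refine ⟨fun v hv => ?_, Finset.mem_insert_self w P⟩
      rw [Finset.mem_insert] at hv
      rcases hv with rfl | hv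
      · by_cases hww : v ∈ N v
        · exact ⟨v, hww, Finset.mem_insert_self _ _⟩
        · by_contra hcon
          push Not at hcon
          refine hP2 ⟨hww, fun z hz hzP => ?_⟩
          exact hcon z hz (Finset.mem_insert_of_mem hzP)
      · rcases hP1 v hv with h1 | ⟨z, hz, hzP⟩
        · exact ⟨w, hs _ _ h1, Finset.mem_insert_self w P⟩
        · exact ⟨z, hz, Finset.mem_insert_of_mem hzP⟩
    · intro P hP P' hP' heq
      rw [Finset.mem_coe, Finset.mem_filter, mem_PP] at hP hP'
      simp only at heq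
      rw [← Finset.erase_insert hP.1.1, ← Finset.erase_insert hP'.1.1, heq]
  -- sets containing `w` and `j`
  have h3 : ((TT N).filter (fun T => w ∈ T ∧ j ∈ T)).card ≤
      ((PP N w).filter (fun P => ¬ j ∉ P)).card := by
    refine Finset.card_le_card_of_injOn (fun T => T.erase w) ?_ ?_
    · intro T hT
      rw [Finset.mem_coe, Finset.mem_filter, mem_TT] at hT
      rw [Finset.mem_coe, Finset.mem_filter, mem_PP]
      obtain ⟨hT1, hwT, hjT⟩ := hT
      refine ⟨⟨Finset.notMem_erase w T, fun v hv => ?_⟩, ?_⟩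
      · have hvw := (Finset.mem_erase.1 hv).1
        obtain ⟨z, hz, hzT⟩ := hT1 v (Finset.mem_of_mem_erase hv)
        by_cases hzw : z = w
        · left
          exact hs _ _ (hzw ▸ hz)
        · right
          exact ⟨z, hz, Finset.mem_erase.2 ⟨hzw, hzT⟩⟩
      · rw [not_not]
        exact Finset.mem_erase.2 ⟨hjw, hjT⟩
    · intro T hT T' hT' heq
      rw [Finset.mem_coe, Finset.mem_filter] at hT hT'
      simp only at heq
      rw [← Finset.insert_erase hT.2.1, ← Finset.insert_erase hT'.2.1, heq]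
  unfold bb hh dd at h
  omega

/-- a vertex whose only neighbour is itself -/
theorem good_loop {N : V → Finset V} {w : V} (hw : N w = {w}) (hs : ∀ u v, u ∈ N v → v ∈ N u) :
    Good N w w := by
  unfold Good
  have hT := Finset.card_filter_add_card_filter_not (s := TT N) (fun T => w ∈ T)
  have h1 : ((TT N).filter (fun T => w ∈ T)).card ≤ ((TT N).filter (fun T => ¬ w ∈ T)).card := by
    refine Finset.card_le_card_of_injOn (fun T => T.erase w) ?_ ?_
    · intro T hT
      rw [Finset.mem_coe, Finset.mem_filter, mem_TT] at hT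
      rw [Finset.mem_coe, Finset.mem_filter, mem_TT]
      refine ⟨fun v hv => ?_, Finset.notMem_erase w T⟩
      obtain ⟨z, hz, hzT⟩ := hT.1 v (Finset.mem_of_mem_erase hv)
      refine ⟨z, hz, Finset.mem_erase.2 ⟨?_, hzT⟩⟩
      rintro rfl
      have := hs _ _ hz
      rw [hw, Finset.mem_singleton] at this
      exact (Finset.mem_erase.1 hv).1 this
    · intro T hT T' hT' heq
      rw [Finset.mem_coe, Finset.mem_filter] at hT hT'
      simp only at heq
      rw [← Finset.insert_erase hT.2, ← Finset.insert_erase hT'.2, heq]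
  simp only [and_self]
  omega

theorem bb_le {N : V → Finset V} {w : V} :
    bb N w ≤ ∑ j ∈ (N w).erase w, ss N w j := by
  unfold bb ss
  refine le_trans (Finset.card_le_card ?_) Finset.card_biUnion_le
  intro P hP
  rw [Finset.mem_filter] at hP
  obtain ⟨hP1, j, hj, hjP, hjz⟩ := hP
  rw [Finset.mem_biUnion]
  refine ⟨j, Finset.mem_erase.2 ⟨?_, hj⟩, Finset.mem_filter.2 ⟨hP1, hjP, hjz⟩⟩
  rintro rfl
  exact (mem_PP.1 hP1).1 hjP

theorem ss_zero {N : V → Finset V} {w j : V} (hj : j ∈ N j) : ss N w j = 0 := by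
  unfold ss
  rw [Finset.card_eq_zero, Finset.filter_eq_empty_iff]
  rintro P _ ⟨h1, h2⟩
  exact h2 j hj h1

/-- the sets missing `j` -/
theorem filter_miss {N : V → Finset V} {w j : V} :
    (PP N w).filter (fun P => j ∉ P) = Fam N ((Finset.univ.erase w).erase j) (N w) := by
  ext P
  rw [Finset.mem_filter, mem_PP, mem_Fam]
  constructor
  · rintro ⟨⟨h1, h2⟩, h3⟩
    refine ⟨fun v hv => ?_, h2⟩
    rw [Finset.mem_erase, Finset.mem_erase]
    exact ⟨fun h => h3 (h ▸ hv), fun h => h1 (h ▸ hv), Finset.mem_univ v⟩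
  · rintro ⟨h1, h2⟩
    refine ⟨⟨fun h => ?_, h2⟩, fun h => ?_⟩
    · have := h1 h
      rw [Finset.mem_erase, Finset.mem_erase] at this
      exact this.2.1 rfl
    · have := h1 h
      rw [Finset.mem_erase] at this
      exact this.1 rfl

theorem ss_le_av {N : V → Finset V} (hs : ∀ u v, u ∈ N v → v ∈ N u) {w j : V}
    {Q : Finset V} (hQ : Q ⊆ N j) (hjj : j ∉ N j) :
    ss N w j ≤ av N ((Finset.univ.erase w).erase j) (N w) Q := by
  unfold ss av
  refine Finset.card_le_card_of_injOn (fun P => P.erase j) ?_ ?_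
  · intro P hP
    rw [Finset.mem_coe, Finset.mem_filter, mem_PP] at hP
    rw [Finset.mem_coe, mem_avs, ← filter_miss, Finset.mem_filter, mem_PP]
    obtain ⟨⟨h1, h2⟩, h3, h4⟩ := hP
    refine ⟨⟨⟨fun h => h1 (Finset.mem_of_mem_erase h), fun v hv => ?_⟩,
      Finset.notMem_erase j P⟩, fun y hy hyP => h4 y (hQ hy) (Finset.mem_of_mem_erase hyP)⟩
    have hvP := Finset.mem_of_mem_erase hv
    rcases h2 v hvP with h5 | ⟨z, hz, hzP⟩
    · exact Or.inl h5
    · right
      refine ⟨z, hz, Finset.mem_erase.2 ⟨?_, hzP⟩⟩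
      rintro rfl
      exact h4 v (hs _ _ hz) hvP
  · intro P hP P' hP' heq
    rw [Finset.mem_coe, Finset.mem_filter] at hP hP'
    simp only at heq
    rw [← Finset.insert_erase hP.2.1, ← Finset.insert_erase hP'.2.1, heq]

/-- main switching bound -/
theorem ss_le {N : V → Finset V} (hs : ∀ u v, u ∈ N v → v ∈ N u) {w j : V}
    {Q : Finset V} (hQ : Q ⊆ (N j).erase w)
    (hQ2 : ∀ y ∈ Q, y ∈ N w ∨ ∃ z ∈ N y, z ≠ w ∧ z ≠ j) :
    gg Q.card * ss N w j ≤ 2 * dd N w j := by
  by_cases hjj : j ∈ N j
  · rw [ss_zero hjj]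
    simp
  · have h1 := ss_le_av hs (w := w) (Q := Q) (fun y hy => Finset.mem_of_mem_erase (hQ hy)) hjj
    have h2 := seq hs ((Finset.univ.erase w).erase j) (N w) Q.card Q rfl ?_ ?_
    · unfold dd
      rw [filter_miss]
      exact (Nat.mul_le_mul_left _ h1).trans h2
    · intro y hy
      rw [Finset.mem_erase, Finset.mem_erase]
      have h3 := Finset.mem_erase.1 (hQ hy)
      exact ⟨fun h => hjj (h ▸ h3.2), h3.1, Finset.mem_univ y⟩
    · intro y hy
      rcases hQ2 y hy with h3 | ⟨z, hz, hzw, hzj⟩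
      · exact Or.inl h3
      · exact Or.inr ⟨z, hz, by simp [hzw, hzj]⟩

theorem ss_le_one {N : V → Finset V} (hs : ∀ u v, u ∈ N v → v ∈ N u) {w j : V} :
    ss N w j ≤ dd N w j := by
  have h := ss_le hs (w := w) (j := j) (Q := ∅) (Finset.empty_subset _) (by simp)
  have h2 : gg (∅ : Finset V).card = 2 := rfl
  rw [h2] at h
  omega

/-- a common neighbour halves the count -/
theorem ss_le_half {N : V → Finset V} (hs : ∀ u v, u ∈ N v → v ∈ N u) {w j y : V}
    (hy : y ∈ N j) (hyw : y ∈ N w) (hyne : y ≠ w) :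
    2 * ss N w j ≤ dd N w j := by
  by_cases hjj : j ∈ N j
  · rw [ss_zero hjj]
    simp
  have hyj : y ≠ j := fun h => hjj (h ▸ hy)
  have h1 := ss_le_av hs (w := w) (Q := N j) (Finset.Subset.refl _) hjj
  unfold av at h1
  unfold dd
  rw [filter_miss]
  set X := (Finset.univ.erase w).erase j with hX
  have hsplit := Finset.card_filter_add_card_filter_not (s := Fam N X (N w)) (fun P => y ∈ P)
  have h2 : (avs N X (N w) (N j)).card ≤
      ((Fam N X (N w)).filter (fun P => ¬ y ∈ P)).card := by
    refine Finset.card_le_card ?_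
    intro P hP
    rw [mem_avs] at hP
    rw [Finset.mem_filter]
    exact ⟨hP.1, hP.2 y hy⟩
  have h3 : (avs N X (N w) (N j)).card ≤
      ((Fam N X (N w)).filter (fun P => y ∈ P)).card := by
    refine Finset.card_le_card_of_injOn (fun P => insert y (insert y P)) ?_ ?_
    · intro P hP
      rw [Finset.mem_coe, mem_avs] at hP
      rw [Finset.mem_coe, Finset.mem_filter]
      refine ⟨add_mem hs hP.1 ?_ (Or.inl ⟨hyw, rfl⟩), by simp⟩
      simp [hX, hyne, hyj]
    · intro P hP P' hP' heq
      rw [Finset.mem_coe, mem_avs] at hP hP'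
      simp only [Finset.insert_idem] at heq
      rw [← Finset.erase_insert (hP.2 y hy), ← Finset.erase_insert (hP'.2 y hy), heq]
  omega

/-- few sets do not cover `w` -/
theorem hh_le {N : V → Finset V} {w j : V} (hj : j ∈ N w) :
    2 ^ ((N w).card - 1) * hh N w ≤ dd N w j := by
  unfold hh dd
  by_cases hww : w ∈ N w
  · have h0 : ((PP N w).filter (fun P => w ∉ N w ∧ ∀ z ∈ N w, z ∉ P)).card = 0 := by
      rw [Finset.card_eq_zero, Finset.filter_eq_empty_iff]
      rintro P _ ⟨h1, _⟩
      exact h1 hww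
    rw [h0]
    simp
  · have h1 : 2 ^ ((N w).card - 1) = ((N w).erase j).powerset.card := by
      rw [Finset.card_powerset, Finset.card_erase_of_mem hj]
    rw [h1, ← Finset.card_product]
    refine Finset.card_le_card_of_injOn (fun x => x.1 ∪ x.2) ?_ ?_
    · rintro ⟨S, P⟩ hx
      rw [Finset.mem_coe, Finset.mem_product, Finset.mem_filter, mem_PP,
        Finset.mem_powerset] at hx
      obtain ⟨hS, ⟨h2, h3⟩, _, h4⟩ := hx
      rw [Finset.mem_coe, Finset.mem_filter, mem_PP]
      simp only at hS h2 h3 h4 ⊢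
      refine ⟨⟨fun h => ?_, fun v hv => ?_⟩, fun h => ?_⟩
      · rw [Finset.mem_union] at h
        rcases h with h | h
        · exact hww (Finset.mem_of_mem_erase (hS h))
        · exact h2 h
      · rw [Finset.mem_union] at hv
        rcases hv with hv | hv
        · exact Or.inl (Finset.mem_of_mem_erase (hS hv))
        · rcases h3 v hv with h5 | ⟨z, hz, hzP⟩
          · exact Or.inl h5
          · exact Or.inr ⟨z, hz, Finset.mem_union_right _ hzP⟩
      · rw [Finset.mem_union] at h
        rcases h with h | h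
        · exact (Finset.mem_erase.1 (hS h)).1 rfl
        · exact h4 j hj h
    · rintro ⟨S, P⟩ hx ⟨S', P'⟩ hx' heq
      rw [Finset.mem_coe, Finset.mem_product, Finset.mem_filter,
        Finset.mem_powerset] at hx hx'
      obtain ⟨hS, _, _, h4⟩ := hx
      obtain ⟨hS', _, _, h4'⟩ := hx'
      simp only at hS h4 hS' h4' heq
      have key : ∀ (S P : Finset V), S ⊆ (N w).erase j → (∀ z ∈ N w, z ∉ P) →
          (S ∪ P).filter (fun v => v ∈ N w) = S ∧ (S ∪ P).filter (fun v => ¬ v ∈ N w) = P := by
        intro S P hS hP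
        constructor
        · ext v
          rw [Finset.mem_filter, Finset.mem_union]
          constructor
          · rintro ⟨h5 | h5, h6⟩
            · exact h5
            · exact absurd h5 (hP v h6)
          · intro h5
            exact ⟨Or.inl h5, Finset.mem_of_mem_erase (hS h5)⟩
        · ext v
          rw [Finset.mem_filter, Finset.mem_union]
          constructor
          · rintro ⟨h5 | h5, h6⟩
            · exact absurd (Finset.mem_of_mem_erase (hS h5)) h6
            · exact h5
          · intro h5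
            exact ⟨Or.inr h5, fun h6 => hP v h6 h5⟩
      obtain ⟨k1, k2⟩ := key S P hS h4
      obtain ⟨k3, k4⟩ := key S' P' hS' h4'
      rw [Prod.mk.injEq]
      exact ⟨by rw [← k1, ← k3, heq], by rw [← k2, ← k4, heq]⟩

end Pool.Agent.Lib.MP_ff7426_co.K2
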